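import Mathlib

/-!
Combinatorial part of the geometric permutation theorem.
-/

namespace Pool.Agent.Helper52.GP

open Finset

set_option linter.unusedSectionVars false

variable {ι : Type*}

/-- the two functions order `S` in the same way -/
def Agree (S : Finset ι) (h g : ι → ℝ) : Prop := ∀ x ∈ S, ∀ y ∈ S, (h x < h y ↔ g x < g y)

/-- the two functions order `S` in the same way up to reversal -/
def Same (S : Finset ι) (h g : ι → ℝ) : Prop := Agree S h g ∨ Agree S h (fun i => - g i)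

/-- the abstract properties of the family of height functions -/
structure Fam (L : (ι → ℝ) → Prop) : Prop where
  neg : ∀ h, L h → L (fun i => - h i)
  inj : ∀ h, L h → Function.Injective h
  HA : ∀ h h', L h → L h' → ∀ i j k l, h i < h j → h j < h k → h k < h l →
    h' j < h' i → h' i < h' l → h' l < h' k → False
  HB : ∀ h h', L h → L h' → ∀ i j k l, h i < h j → h j < h k → h k < h l →
    h' i < h' k → h' k < h' l → h' l < h' j → False

theorem even_perms : ∀ τ : Equiv.Perm (Fin 4), Equiv.Perm.sign τ = 1 →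
    (τ 0 = 0 ∧ τ 1 = 1 ∧ τ 2 = 2 ∧ τ 3 = 3) ∨ (τ 0 = 3 ∧ τ 1 = 2 ∧ τ 2 = 1 ∧ τ 3 = 0) ∨
    (τ 0 = 1 ∧ τ 1 = 0 ∧ τ 2 = 3 ∧ τ 3 = 2) ∨ (τ 0 = 2 ∧ τ 1 = 3 ∧ τ 2 = 0 ∧ τ 3 = 1) ∨
    (τ 0 = 0 ∧ τ 1 = 2 ∧ τ 2 = 3 ∧ τ 3 = 1) ∨ (τ 0 = 1 ∧ τ 1 = 3 ∧ τ 2 = 2 ∧ τ 3 = 0) ∨
    (τ 0 = 0 ∧ τ 1 = 3 ∧ τ 2 = 1 ∧ τ 3 = 2) ∨ (τ 0 = 2 ∧ τ 1 = 1 ∧ τ 2 = 3 ∧ τ 3 = 0) ∨
    (τ 0 = 1 ∧ τ 1 = 2 ∧ τ 2 = 0 ∧ τ 3 = 3) ∨ (τ 0 = 3 ∧ τ 1 = 0 ∧ τ 2 = 2 ∧ τ 3 = 1) ∨
    (τ 0 = 2 ∧ τ 1 = 0 ∧ τ 2 = 1 ∧ τ 3 = 3) ∨ (τ 0 = 3 ∧ τ 1 = 1 ∧ τ 2 = 0 ∧ τ 3 = 2) := by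
  decide

theorem even_same {L : (ι → ℝ) → Prop} (F : Fam L) {h h' : ι → ℝ} (hh : L h) (hh' : L h')
    (g : Fin 4 → ι) (τ : Equiv.Perm (Fin 4)) (hτ : Equiv.Perm.sign τ = 1)
    (h1 : h (g 0) < h (g 1)) (h2 : h (g 1) < h (g 2)) (h3 : h (g 2) < h (g 3))
    (m1 : h' (g (τ 0)) < h' (g (τ 1))) (m2 : h' (g (τ 1)) < h' (g (τ 2)))
    (m3 : h' (g (τ 2)) < h' (g (τ 3))) :
    (h' (g 0) < h' (g 1) ∧ h' (g 1) < h' (g 2) ∧ h' (g 2) < h' (g 3)) ∨
    (h' (g 3) < h' (g 2) ∧ h' (g 2) < h' (g 1) ∧ h' (g 1) < h' (g 0)) := by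
  have n := F.neg h hh
  have n' := F.neg h' hh'
  rcases even_perms τ hτ with ⟨e0, e1, e2, e3⟩ | ⟨e0, e1, e2, e3⟩ | ⟨e0, e1, e2, e3⟩ |
    ⟨e0, e1, e2, e3⟩ | ⟨e0, e1, e2, e3⟩ | ⟨e0, e1, e2, e3⟩ | ⟨e0, e1, e2, e3⟩ | ⟨e0, e1, e2, e3⟩ |
    ⟨e0, e1, e2, e3⟩ | ⟨e0, e1, e2, e3⟩ | ⟨e0, e1, e2, e3⟩ | ⟨e0, e1, e2, e3⟩ <;>
    rw [e0, e1] at m1 <;> rw [e1, e2] at m2 <;> rw [e2, e3] at m3
  · exact Or.inl ⟨m1, m2, m3⟩
  · exact Or.inr ⟨m1, m2, m3⟩
  · exact (F.HA h h' hh hh' _ _ _ _ h1 h2 h3 m1 m2 m3).elim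
  · exact (F.HA h _ hh n' _ _ _ _ h1 h2 h3 (neg_lt_neg m3) (neg_lt_neg m2) (neg_lt_neg m1)).elim
  · exact (F.HB h h' hh hh' _ _ _ _ h1 h2 h3 m1 m2 m3).elim
  · exact (F.HB h _ hh n' _ _ _ _ h1 h2 h3 (neg_lt_neg m3) (neg_lt_neg m2) (neg_lt_neg m1)).elim
  · exact (F.HB h' h hh' hh _ _ _ _ m1 m2 m3 h1 h2 h3).elim
  · exact (F.HB _ h n' hh _ _ _ _ (neg_lt_neg m3) (neg_lt_neg m2) (neg_lt_neg m1) h1 h2 h3).elim
  · exact (F.HB _ _ n' n _ _ _ _ (neg_lt_neg m3) (neg_lt_neg m2) (neg_lt_neg m1)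
      (neg_lt_neg h3) (neg_lt_neg h2) (neg_lt_neg h1)).elim
  · exact (F.HB h' _ hh' n _ _ _ _ m1 m2 m3 (neg_lt_neg h3) (neg_lt_neg h2) (neg_lt_neg h1)).elim
  · exact (F.HB _ _ n n' _ _ _ _ (neg_lt_neg h3) (neg_lt_neg h2) (neg_lt_neg h1)
      (neg_lt_neg m3) (neg_lt_neg m2) (neg_lt_neg m1)).elim
  · exact (F.HB _ h' n hh' _ _ _ _ (neg_lt_neg h3) (neg_lt_neg h2) (neg_lt_neg h1) m1 m2 m3).elim

theorem strictMono_of_three {f : Fin 4 → ℝ} (h1 : f 0 < f 1) (h2 : f 1 < f 2) (h3 : f 2 < f 3) :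
    StrictMono f := by
  rw [Fin.strictMono_iff_lt_succ]
  intro i
  fin_cases i
  · exact h1
  · exact h2
  · exact h3

theorem exists_sort {h : ι → ℝ} (hi : Function.Injective h) {e : Fin 4 → ι}
    (he : Function.Injective e) :
    ∃ σ : Equiv.Perm (Fin 4), StrictMono (fun i => h (e (σ i))) := by
  refine ⟨Tuple.sort (fun i => h (e i)), ?_⟩
  have hm := Tuple.monotone_sort (fun i => h (e i))
  exact hm.strictMono_of_injective
    ((hi.comp he).comp (Tuple.sort (fun i => h (e i))).injective)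

/-- equal signs give the same order up to reversal -/
theorem same_of_sign [DecidableEq ι] {L : (ι → ℝ) → Prop} (F : Fam L) {h h' : ι → ℝ} (hh : L h)
    (hh' : L h') (e : Fin 4 → ι) (σ σ' : Equiv.Perm (Fin 4))
    (hs : StrictMono (fun i => h (e (σ i)))) (hs' : StrictMono (fun i => h' (e (σ' i))))
    (hsign : Equiv.Perm.sign σ = Equiv.Perm.sign σ') :
    Same (Finset.univ.image e) h h' := by
  have hτ : Equiv.Perm.sign (σ⁻¹ * σ') = 1 := by
    rw [Equiv.Perm.sign_mul, Equiv.Perm.sign_inv, hsign]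
    exact Int.units_mul_self _
  have hcomp : ∀ i, (σ ((σ⁻¹ * σ') i)) = σ' i := by
    intro i
    simp
  have key := even_same F hh hh' (fun i => e (σ i)) (σ⁻¹ * σ') hτ (hs (by decide)) (hs (by decide))
    (hs (by decide))
    (by simp only [hcomp]; exact hs' (by decide)) (by simp only [hcomp]; exact hs' (by decide))
    (by simp only [hcomp]; exact hs' (by decide))
  have hmem : ∀ x ∈ Finset.univ.image e, ∃ i, x = e (σ i) := by
    intro x hx
    rw [Finset.mem_image] at hx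
    obtain ⟨j, -, rfl⟩ := hx
    exact ⟨σ⁻¹ j, by simp⟩
  rcases key with ⟨k1, k2, k3⟩ | ⟨k1, k2, k3⟩
  · left
    have hm := strictMono_of_three (f := fun i => h' (e (σ i))) k1 k2 k3
    intro x hx y hy
    obtain ⟨i, rfl⟩ := hmem x hx
    obtain ⟨j, rfl⟩ := hmem y hy
    exact hs.lt_iff_lt.trans hm.lt_iff_lt.symm
  · right
    have hm := strictMono_of_three (f := fun i => - h' (e (σ i))) (neg_lt_neg k3) (neg_lt_neg k2)
      (neg_lt_neg k1)
    intro x hx y hy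
    obtain ⟨i, rfl⟩ := hmem x hx
    obtain ⟨j, rfl⟩ := hmem y hy
    exact hs.lt_iff_lt.trans hm.lt_iff_lt.symm

/-- base case: four elements -/
theorem base [DecidableEq ι] {L : (ι → ℝ) → Prop} (F : Fam L) (S : Finset ι) (hS : S.card = 4)
    (hh : Fin 3 → ι → ℝ) (hL : ∀ k, L (hh k)) :
    ∃ k, Same S (hh (k + 1)) (hh (k + 2)) := by
  obtain ⟨e, he⟩ : ∃ e : Fin 4 → ι, Function.Injective e ∧ Finset.univ.image e = S := by
    let f := (S.equivFinOfCardEq hS).symm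
    refine ⟨fun i => (f i : ι), fun i j hij => f.injective (Subtype.ext hij), ?_⟩
    ext x
    simp only [Finset.mem_image, Finset.mem_univ, true_and]
    constructor
    · rintro ⟨i, rfl⟩
      exact (f i).2
    · intro hx
      exact ⟨f.symm ⟨x, hx⟩, by simp⟩
  obtain ⟨he1, rfl⟩ := he
  choose σ hσ using fun k => exists_sort (F.inj _ (hL k)) he1
  have h2 : ∀ k, Equiv.Perm.sign (σ k) = 1 ∨ Equiv.Perm.sign (σ k) = -1 :=
    fun k => Int.units_eq_one_or _
  have h3 : ∃ k : Fin 3, Equiv.Perm.sign (σ (k + 1)) = Equiv.Perm.sign (σ (k + 2)) := by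
    rcases h2 0 with a | a <;> rcases h2 1 with b | b <;> rcases h2 2 with c | c
    · exact ⟨0, by simp [b, c]⟩
    · exact ⟨2, by simp [a, b]⟩
    · exact ⟨1, by simp [a, c]⟩
    · exact ⟨0, by simp [b, c]⟩
    · exact ⟨0, by simp [b, c]⟩
    · exact ⟨1, by simp [a, c]⟩
    · exact ⟨2, by simp [a, b]⟩
    · exact ⟨0, by simp [b, c]⟩
  obtain ⟨k, hk⟩ := h3
  exact ⟨k, same_of_sign F (hL _) (hL _) e _ _ (hσ _) (hσ _) hk⟩

theorem Agree.mono {S T : Finset ι} {h g : ι → ℝ} (hST : T ⊆ S) (H : Agree S h g) :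
    Agree T h g := fun x hx y hy => H x (hST hx) y (hST hy)

theorem not_agree_neg {S : Finset ι} {h g : ι → ℝ} (hi : Function.Injective h) {p q : ι}
    (hp : p ∈ S) (hq : q ∈ S) (hpq : p ≠ q) (H : Agree S h g) (H' : Agree S h (fun i => - g i)) :
    False := by
  rcases lt_trichotomy (h p) (h q) with hl | hl | hl
  · have h1 := (H p hp q hq).1 hl
    have h2 := (H' p hp q hq).1 hl
    simp only at h2
    linarith
  · exact hpq (hi hl)
  · have h1 := (H q hq p hp).1 hl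
    have h2 := (H' q hq p hp).1 hl
    simp only at h2
    linarith

variable [DecidableEq ι]

/-- gluing the orientation on two deletions -/
theorem glue {L : (ι → ℝ) → Prop} (F : Fam L) {S : Finset ι} (hS : 4 ≤ S.card) {h g : ι → ℝ}
    (hh : L h) (hg : L g) {x y : ι}
    (hx : Same (S.erase x) h g) (hy : Same (S.erase y) h g) :
    ∃ g', L g' ∧ (g' = g ∨ g' = fun i => - g i) ∧ Agree (S.erase x) h g' ∧
      Agree (S.erase y) h g' := by
  obtain ⟨p, hp, q, hq, hpq⟩ : ∃ p ∈ (S.erase x).erase y, ∃ q ∈ (S.erase x).erase y, p ≠ q := by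
    have h1 : 1 < ((S.erase x).erase y).card := by
      have h2 := Finset.pred_card_le_card_erase (s := S) (a := x)
      have h3 := Finset.pred_card_le_card_erase (s := S.erase x) (a := y)
      omega
    exact Finset.one_lt_card.1 h1
  have sub1 : (S.erase x).erase y ⊆ S.erase x := Finset.erase_subset _ _
  have sub2 : (S.erase x).erase y ⊆ S.erase y := by
    rw [Finset.erase_right_comm]
    exact Finset.erase_subset _ _
  have hi := F.inj h hh
  rcases hx with hx | hx <;> rcases hy with hy | hy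
  · exact ⟨g, hg, Or.inl rfl, hx, hy⟩
  · exact (not_agree_neg hi hp hq hpq (hx.mono sub1) (hy.mono sub2)).elim
  · exact (not_agree_neg hi hp hq hpq (hy.mono sub2) (hx.mono sub1)).elim
  · exact ⟨_, F.neg g hg, Or.inr rfl, hx, hy⟩

theorem same_of_agree_neg {S : Finset ι} {h g g' : ι → ℝ} (hg' : g' = g ∨ g' = fun i => - g i)
    (H : Agree S h g') : Same S h g := by
  rcases hg' with rfl | rfl
  · exact Or.inl H
  · exact Or.inr H

/-- if the orders agree on both deletions but not on `S`, then the two points are swapped -/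
theorem swapped {S : Finset ι} {h g : ι → ℝ} (hi : Function.Injective h)
    (hgi : Function.Injective g) {x y : ι} (hxy : x ≠ y)
    (hx : Agree (S.erase x) h g) (hy : Agree (S.erase y) h g) (hn : ¬ Agree S h g) :
    (h x < h y ∧ g y < g x) ∨ (h y < h x ∧ g x < g y) := by
  by_contra hcon
  push Not at hcon
  apply hn
  intro p hp q hq
  by_cases hpq : p = q
  · subst hpq; simp
  by_cases c1 : p ≠ x ∧ q ≠ x
  · exact hx p (Finset.mem_erase.2 ⟨c1.1, hp⟩) q (Finset.mem_erase.2 ⟨c1.2, hq⟩)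
  by_cases c2 : p ≠ y ∧ q ≠ y
  · exact hy p (Finset.mem_erase.2 ⟨c2.1, hp⟩) q (Finset.mem_erase.2 ⟨c2.2, hq⟩)
  have hxy' : h x ≠ h y := fun e => hxy (hi e)
  have gxy' : g x ≠ g y := fun e => hxy (hgi e)
  have c3 : (p = x ∧ q = y) ∨ (p = y ∧ q = x) := by
    by_cases a : p = x
    · left
      refine ⟨a, ?_⟩
      by_contra b
      exact c2 ⟨by rw [a]; exact hxy, b⟩
    · right
      have b : q = x := by
        by_contra b
        exact c1 ⟨a, b⟩
      refine ⟨?_, b⟩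
      by_contra c
      exact c2 ⟨c, by rw [b]; exact hxy⟩
  rcases c3 with ⟨rfl, rfl⟩ | ⟨rfl, rfl⟩
  · constructor
    · intro hl
      exact lt_of_le_of_ne (hcon.1 hl) gxy'
    · intro hl
      by_contra hl'
      have := hcon.2 (lt_of_le_of_ne (not_lt.1 hl') (Ne.symm hxy'))
      linarith
  · constructor
    · intro hl
      exact lt_of_le_of_ne (hcon.2 hl) (Ne.symm gxy')
    · intro hl
      by_contra hl'
      have := hcon.1 (lt_of_le_of_ne (not_lt.1 hl') hxy')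
      linarith

/-- the double swap is impossible -/
theorem double_swap {L : (ι → ℝ) → Prop} (F : Fam L) {S : Finset ι} {h g f : ι → ℝ}
    (hh : L h) (hg : L g) (hf : L f) {x y z w : ι} (hxS : x ∈ S) (hyS : y ∈ S) (hzS : z ∈ S)
    (hwS : w ∈ S) (hxz : x ≠ z) (hxw : x ≠ w) (hyz : y ≠ z) (hyw : y ≠ w)
    (gx : Agree (S.erase x) h g) (gy : Agree (S.erase y) h g)
    (fz : Agree (S.erase z) h f) (fw : Agree (S.erase w) h f)
    (h1 : h x < h y) (g1 : g y < g x) (h2 : h z < h w) (f1 : f w < f z) : False := by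
  have hi := F.inj h hh
  have mx : ∀ {p}, p ∈ S → p ≠ x → p ∈ S.erase x := fun hp hne => Finset.mem_erase.2 ⟨hne, hp⟩
  have my : ∀ {p}, p ∈ S → p ≠ y → p ∈ S.erase y := fun hp hne => Finset.mem_erase.2 ⟨hne, hp⟩
  have mz : ∀ {p}, p ∈ S → p ≠ z → p ∈ S.erase z := fun hp hne => Finset.mem_erase.2 ⟨hne, hp⟩
  have mw : ∀ {p}, p ∈ S → p ≠ w → p ∈ S.erase w := fun hp hne => Finset.mem_erase.2 ⟨hne, hp⟩
  have hxy : x ≠ y := by rintro rfl; exact lt_irrefl _ h1
  have hzw : z ≠ w := by rintro rfl; exact lt_irrefl _ h2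
  -- no point strictly between x and y
  have btw1 : ∀ p ∈ S, p ≠ x → p ≠ y → ¬ (h x < h p ∧ h p < h y) := by
    rintro p hp px py ⟨a, b⟩
    have a' := (gy x (my hxS hxy) p (my hp py)).1 a
    have b' := (gx p (mx hp px) y (mx hyS hxy.symm)).1 b
    linarith
  have btw2 : ∀ p ∈ S, p ≠ z → p ≠ w → ¬ (h z < h p ∧ h p < h w) := by
    rintro p hp pz pw ⟨a, b⟩
    have a' := (fw z (mw hzS hzw) p (mw hp pw)).1 a
    have b' := (fz p (mz hp pz) w (mz hwS hzw.symm)).1 b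
    linarith
  have nxz : h x ≠ h z := fun e => hxz (hi e)
  have nxw : h x ≠ h w := fun e => hxw (hi e)
  have nyz : h y ≠ h z := fun e => hyz (hi e)
  rcases lt_or_gt_of_ne nyz with c | c
  · -- x < y < z < w
    have g2 := (gy x (my hxS hxy) z (my hzS hyz.symm)).1 (h1.trans c)
    have g3 := (gx z (mx hzS hxz.symm) w (mx hwS hxw.symm)).1 h2
    have f2 := (fz x (mz hxS hxz) y (mz hyS hyz)).1 h1
    have f3 := (fz y (mz hyS hyz) w (mz hwS hzw.symm)).1 (c.trans h2)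
    exact F.HA g f hg hf y x z w g1 g2 g3 f2 f3 f1
  · -- z < y, hence z < x
    have c1 : h z < h x := by
      rcases lt_or_gt_of_ne nxz with d | d
      · exact (btw1 z hzS hxz.symm hyz.symm ⟨d, c⟩).elim
      · exact d
    have c2 : h w < h x := by
      rcases lt_or_gt_of_ne nxw with d | d
      · exact (btw2 x hxS hxz hxw ⟨c1, d⟩).elim
      · exact d
    -- z < w < x < y
    have f2 := (fw z (mw hzS hzw) x (mw hxS hxw)).1 c1
    have f3 := (fz x (mz hxS hxz) y (mz hyS hyz)).1 h1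
    have g2 := (gx z (mx hzS hxz.symm) w (mx hwS hxw.symm)).1 h2
    have g3 := (gx w (mx hwS hxw.symm) y (mx hyS hxy.symm)).1 (c2.trans h1)
    exact F.HA f g hf hg w z x y f1 f2 f3 g2 g3 g1

theorem no_double {L : (ι → ℝ) → Prop} (F : Fam L) {S : Finset ι} {h g f : ι → ℝ}
    (hh : L h) (hg : L g) (hf : L f) {x y z w : ι} (hxS : x ∈ S) (hyS : y ∈ S) (hzS : z ∈ S)
    (hwS : w ∈ S) (hxy : x ≠ y) (hzw : z ≠ w) (hxz : x ≠ z) (hxw : x ≠ w) (hyz : y ≠ z)
    (hyw : y ≠ w)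
    (gx : Agree (S.erase x) h g) (gy : Agree (S.erase y) h g)
    (fz : Agree (S.erase z) h f) (fw : Agree (S.erase w) h f)
    (hng : ¬ Agree S h g) (hnf : ¬ Agree S h f) : False := by
  have hi := F.inj h hh
  have hgi := F.inj g hg
  have hfi := F.inj f hf
  rcases swapped hi hgi hxy gx gy hng with ⟨a, b⟩ | ⟨a, b⟩ <;>
    rcases swapped hi hfi hzw fz fw hnf with ⟨c, d⟩ | ⟨c, d⟩
  · exact double_swap F hh hg hf hxS hyS hzS hwS hxz hxw hyz hyw gx gy fz fw a b c d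
  · exact double_swap F hh hg hf hxS hyS hwS hzS hxw hxz hyw hyz gx gy fw fz a b c d
  · exact double_swap F hh hg hf hyS hxS hzS hwS hyz hyw hxz hxw gy gx fz fw a b c d
  · exact double_swap F hh hg hf hyS hxS hwS hzS hyw hyz hxw hxz gy gx fw fz a b c d

theorem Same.symm {S : Finset ι} {h g : ι → ℝ} (H : Same S h g) : Same S g h := by
  rcases H with H | H
  · exact Or.inl fun x hx y hy => (H x hx y hy).symm
  · refine Or.inr fun x hx y hy => ?_
    have h1 := H y hy x hx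
    simp only [neg_lt_neg_iff] at h1 ⊢
    exact h1.symm

theorem Same.neg_right {S : Finset ι} {h g g' : ι → ℝ} (hg' : g' = g ∨ g' = fun i => - g i)
    (H : Same S h g) : Same S h g' := by
  rcases hg' with rfl | rfl
  · exact H
  · rcases H with H | H
    · refine Or.inr fun x hx y hy => ?_
      simp only [neg_neg]
      exact H x hx y hy
    · exact Or.inl H

theorem three_same {L : (ι → ℝ) → Prop} (F : Fam L) {S : Finset ι} (hS : 4 ≤ S.card)
    {h g : ι → ℝ} (hh : L h) (hg : L g) {x y z : ι} (hxy : x ≠ y) (hxz : x ≠ z) (hyz : y ≠ z)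
    (hx : Same (S.erase x) h g) (hy : Same (S.erase y) h g) (hz : Same (S.erase z) h g) :
    Same S h g := by
  obtain ⟨g', hg', hgg', ax, ay⟩ := glue F hS hh hg hx hy
  obtain ⟨g'', hg'', hgg'', bx, bz⟩ := glue F hS hh hg' (Or.inl ax) (hz.neg_right hgg')
  have az : Agree (S.erase z) h g' := by
    rcases hgg'' with rfl | rfl
    · exact bz
    · obtain ⟨p, hp, q, hq, hpq⟩ : ∃ p ∈ S.erase x, ∃ q ∈ S.erase x, p ≠ q := by
        have h1 : 1 < (S.erase x).card := by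
          have h2 := Finset.pred_card_le_card_erase (s := S) (a := x)
          omega
        exact Finset.one_lt_card.1 h1
      exact (not_agree_neg (F.inj h hh) hp hq hpq ax bx).elim
  apply same_of_agree_neg hgg'
  intro p hp q hq
  by_cases c1 : p ≠ x ∧ q ≠ x
  · exact ax p (Finset.mem_erase.2 ⟨c1.1, hp⟩) q (Finset.mem_erase.2 ⟨c1.2, hq⟩)
  by_cases c2 : p ≠ y ∧ q ≠ y
  · exact ay p (Finset.mem_erase.2 ⟨c2.1, hp⟩) q (Finset.mem_erase.2 ⟨c2.2, hq⟩)
  by_cases c3 : p ≠ z ∧ q ≠ z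
  · exact az p (Finset.mem_erase.2 ⟨c3.1, hp⟩) q (Finset.mem_erase.2 ⟨c3.2, hq⟩)
  exfalso
  by_cases p1 : p = x
  · subst p1
    have q2 : q = y := by
      by_contra hc
      exact c2 ⟨hxy, hc⟩
    subst q2
    exact c3 ⟨hxz, hyz⟩
  · have q1 : q = x := by
      by_contra hc
      exact c1 ⟨p1, hc⟩
    subst q1
    have p2 : p = y := by
      by_contra hc
      exact c2 ⟨hc, hxy⟩
    subst p2
    exact c3 ⟨hyz, hxz⟩

/-- among three lines two induce the same order up to reversal -/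
theorem two_of_three {L : (ι → ℝ) → Prop} (F : Fam L) (n : ℕ) (hn : 4 ≤ n) :
    ∀ S : Finset ι, S.card = n → ∀ hh : Fin 3 → ι → ℝ, (∀ k, L (hh k)) →
      ∃ k, Same S (hh (k + 1)) (hh (k + 2)) := by
  induction n, hn using Nat.le_induction with
  | base => exact fun S hS hh hL => base F S hS hh hL
  | succ n hn ih =>
    intro S hS hh hL
    by_contra hcon
    push Not at hcon
    have h1 : ∀ x ∈ S, ∃ k, Same (S.erase x) (hh (k + 1)) (hh (k + 2)) := by
      intro x hx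
      exact ih (S.erase x) (by rw [Finset.card_erase_of_mem hx, hS]; rfl) hh hL
    choose! col hcol using h1
    have hS4 : 4 ≤ S.card := by omega
    obtain ⟨x, hx, y, hy, hxy, hc1⟩ := Finset.exists_ne_map_eq_of_card_lt_of_maps_to
      (s := S) (t := (Finset.univ : Finset (Fin 3))) (f := col)
      (by rw [Finset.card_univ, Fintype.card_fin]; omega) (fun _ _ => Finset.mem_univ _)
    obtain ⟨z, hz, w, hw, hzw, hc2⟩ := Finset.exists_ne_map_eq_of_card_lt_of_maps_to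
      (s := S.erase x) (t := (Finset.univ : Finset (Fin 3))) (f := col)
      (by rw [Finset.card_univ, Fintype.card_fin, Finset.card_erase_of_mem hx]; omega)
      (fun _ _ => Finset.mem_univ _)
    rw [Finset.mem_erase] at hz hw
    have Sx := hcol x hx
    have Sy := hcol y hy
    have Sz := hcol z hz.2
    have Sw := hcol w hw.2
    rw [← hc1] at Sy
    rw [← hc2] at Sw
    by_cases hzx : col z = col x
    · rw [hzx] at Sz Sw
      exact hcon _ (three_same F hS4 (hL _) (hL _) hz.1.symm hw.1.symm hzw Sx Sz Sw)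
    · have hyz : y ≠ z := by
        rintro rfl
        exact hzx hc1.symm
      have hyw : y ≠ w := by
        rintro rfl
        exact hzx (hc2.trans hc1.symm)
      have hfin : ∀ k k' : Fin 3, k' ≠ k → k' = k + 1 ∨ k' = k + 2 := by decide
      have e1 : ∀ k : Fin 3, k + 1 + 1 = k + 2 := by decide
      have e2 : ∀ k : Fin 3, k + 1 + 2 = k := by decide
      have e3 : ∀ k : Fin 3, k + 2 + 1 = k := by decide
      have e4 : ∀ k : Fin 3, k + 2 + 2 = k + 1 := by decide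
      rcases hfin _ _ hzx with hk | hk
      · rw [hk, e1, e2] at Sz Sw
        obtain ⟨g, hg, hgg, gx, gy⟩ := glue F hS4 (hL _) (hL _) Sx.symm Sy.symm
        obtain ⟨f, hf, hff, fz, fw⟩ := glue F hS4 (hL _) (hL _) Sz Sw
        refine no_double F (hL _) hg hf hx hy hz.2 hw.2 hxy hzw hz.1.symm hw.1.symm hyz hyw
          gx gy fz fw (fun H => ?_) (fun H => ?_)
        · exact hcon _ (same_of_agree_neg hgg H).symm
        · have := hcon (col x + 1)
          rw [e1, e2] at this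
          exact this (same_of_agree_neg hff H)
      · rw [hk, e3, e4] at Sz Sw
        obtain ⟨g, hg, hgg, gx, gy⟩ := glue F hS4 (hL _) (hL _) Sx Sy
        obtain ⟨f, hf, hff, fz, fw⟩ := glue F hS4 (hL _) (hL _) Sz.symm Sw.symm
        refine no_double F (hL _) hg hf hx hy hz.2 hw.2 hxy hzw hz.1.symm hw.1.symm hyz hyw
          gx gy fz fw (fun H => ?_) (fun H => ?_)
        · exact hcon _ (same_of_agree_neg hgg H)
        · have := hcon (col x + 2)
          rw [e3, e4] at this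
          exact this (same_of_agree_neg hff H).symm

end Pool.Agent.Helper52.GP
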