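import Pool.Agent.Helper52.GP.Scalar

/-!
Vector inequalities for the geometric permutation theorem.
-/

namespace Pool.Agent.Helper52.GP

variable {V : Type*} [NormedAddCommGroup V] [InnerProductSpace ℝ V]

omit [InnerProductSpace ℝ V] in
theorem sq_le_one_of {α : V} (h : ‖α‖ ≤ 1) : ‖α‖ ^ 2 ≤ 1 := by
  have := norm_nonneg α
  nlinarith

theorem norm_add_le_of {α β : V} {X : ℝ} (hX : 0 ≤ X) (ha : ‖α‖ ≤ 1) (hb : ‖β‖ ≤ 1)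
    (h : 4 ≤ X ^ 2 + ‖α - β‖ ^ 2) : ‖α + β‖ ≤ X := by
  apply le_of_sq_le_sq _ hX
  rw [norm_add_sq_real]
  rw [norm_sub_sq_real] at h
  have h1 := sq_le_one_of ha
  have h2 := sq_le_one_of hb
  linarith

theorem norm_add_lt_of {α β : V} {X : ℝ} (hX : 0 ≤ X) (ha : ‖α‖ ≤ 1) (hb : ‖β‖ ≤ 1)
    (h : 4 < X ^ 2 + ‖α - β‖ ^ 2) : ‖α + β‖ < X := by
  apply lt_of_pow_lt_pow_left₀ 2 hX
  rw [norm_add_sq_real]
  rw [norm_sub_sq_real] at h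
  have h1 := sq_le_one_of ha
  have h2 := sq_le_one_of hb
  linarith

theorem inner_add_sub' (x y : V) : inner ℝ (x + y) (x - y) = ‖x‖ ^ 2 - ‖y‖ ^ 2 := by
  rw [inner_add_left, inner_sub_right, inner_sub_right, real_inner_self_eq_norm_sq,
      real_inner_self_eq_norm_sq, real_inner_comm x y]
  ring

theorem inner_bound (x y : V) : -(‖x‖ * ‖y‖) ≤ inner ℝ x y :=
  neg_le_of_abs_le (abs_real_inner_le_norm x y)

/-- path lemma -/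
theorem path_lt {α γ δ : V} {X Y : ℝ} (hX : 0 ≤ X) (hY : 0 ≤ Y) (ha : ‖α‖ ≤ 1) (hg : ‖γ‖ ≤ 1)
    (hd : ‖δ‖ ≤ 1) (h1 : 4 < X ^ 2 + ‖α - γ‖ ^ 2) (h2 : 4 < Y ^ 2 + ‖γ - δ‖ ^ 2) :
    4 < (X + Y) ^ 2 + ‖α + δ‖ ^ 2 := by
  have e1 := norm_add_le_of hX ha hg h1.le
  have e2 := norm_add_le_of hY hg hd h2.le
  have e3 : ‖α + γ‖ * ‖γ + δ‖ ≤ X * Y := mul_le_mul e1 e2 (norm_nonneg _) hX
  have e4 := inner_bound (α + γ) (γ + δ)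
  rw [inner_add_left, inner_add_right, inner_add_right, real_inner_self_eq_norm_sq] at e4
  rw [norm_sub_sq_real] at h1 h2
  rw [norm_add_sq_real]
  have h3 := sq_le_one_of hg
  linarith

/-- tie lemma -/
theorem tie_le {α γ δ : V} {X Y : ℝ} (hX : 0 ≤ X) (hY : 0 ≤ Y) (ha : ‖α‖ ≤ 1) (hg : ‖γ‖ ≤ 1)
    (hd : ‖δ‖ ≤ 1) (h1 : 4 < X ^ 2 + ‖α - γ‖ ^ 2) (h2 : 4 < Y ^ 2 + ‖γ - δ‖ ^ 2) :
    X ^ 2 + ‖α - γ‖ ^ 2 ≤ (X + Y) ^ 2 + ‖α + δ‖ ^ 2 := by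
  have e1 := norm_add_le_of hX ha hg h1.le
  have e2 := norm_add_le_of hY hg hd h2.le
  have e3 : ‖α + γ‖ * ‖γ + δ‖ ≤ X * Y := mul_le_mul e1 e2 (norm_nonneg _) hX
  have e4 := inner_bound (α + γ) (γ + δ)
  rw [inner_add_left, inner_add_right, inner_add_right, real_inner_self_eq_norm_sq] at e4
  rw [norm_sub_sq_real] at h2
  rw [norm_sub_sq_real, norm_add_sq_real]
  have h3 := sq_le_one_of hg
  linarith

/-- outer distance beats inner distance -/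
theorem outer_lt {p₁ p₂ p₃ p₄ : V} {X Y Z : ℝ} (hX : 0 ≤ X) (hY : 0 ≤ Y) (hZ : 0 ≤ Z)
    (h1 : ‖p₁‖ ≤ 1) (h2 : ‖p₂‖ ≤ 1) (h3 : ‖p₃‖ ≤ 1) (h4 : ‖p₄‖ ≤ 1)
    (h12 : 4 < X ^ 2 + ‖p₁ - p₂‖ ^ 2) (h34 : 4 < Z ^ 2 + ‖p₃ - p₄‖ ^ 2)
    (h13 : 4 < (X + Y) ^ 2 + ‖p₁ - p₃‖ ^ 2) (h24 : 4 < (Y + Z) ^ 2 + ‖p₂ - p₄‖ ^ 2) :
    Y ^ 2 + ‖p₂ - p₃‖ ^ 2 < (X + Y + Z) ^ 2 + ‖p₁ - p₄‖ ^ 2 := by
  have e12 := norm_add_lt_of hX h1 h2 h12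
  have e34 := norm_add_lt_of hZ h3 h4 h34
  have e13 := norm_add_lt_of (add_nonneg hX hY) h1 h3 h13
  have e24 := norm_add_lt_of (add_nonneg hY hZ) h2 h4 h24
  have f1 : ‖(p₁ + p₂) - (p₃ + p₄)‖ < X + Z := lt_of_le_of_lt (norm_sub_le _ _) (add_lt_add e12 e34)
  have f2 : ‖(p₁ + p₃) - (p₂ + p₄)‖ < (X + Y) + (Y + Z) :=
    lt_of_le_of_lt (norm_sub_le _ _) (add_lt_add e13 e24)
  have f3 : ‖(p₁ + p₂) - (p₃ + p₄)‖ * ‖(p₁ + p₃) - (p₂ + p₄)‖ < (X + Z) * ((X + Y) + (Y + Z)) :=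
    mul_lt_mul'' f1 f2 (norm_nonneg _) (norm_nonneg _)
  have f4 := inner_bound ((p₁ + p₂) - (p₃ + p₄)) ((p₁ + p₃) - (p₂ + p₄))
  have f5 : inner ℝ ((p₁ + p₂) - (p₃ + p₄)) ((p₁ + p₃) - (p₂ + p₄))
      = ‖p₁ - p₄‖ ^ 2 - ‖p₂ - p₃‖ ^ 2 := by
    have g1 : (p₁ + p₂) - (p₃ + p₄) = (p₁ - p₄) + (p₂ - p₃) := by abel
    have g2 : (p₁ + p₃) - (p₂ + p₄) = (p₁ - p₄) - (p₂ - p₃) := by abel
    rw [g1, g2, inner_add_sub']
  rw [f5] at f4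
  linarith

/-- the line with order `1 2 3 4` -/
theorem sideL {f b e : V} {s ρ r q K : ℝ} (hs : 0 < s) (hρ0 : 0 ≤ ρ)
    (hf : ‖f‖ ≤ 1) (hb : ‖b‖ ≤ 1) (he : ‖e‖ ≤ 1)
    (hρ1 : 4 < ρ ^ 2 + ‖b - e‖ ^ 2) (hρ2 : 4 < ρ ^ 2 + ‖b + e‖ ^ 2)
    (hr0 : 0 ≤ r) (hq0 : 0 ≤ q) (hq : q ^ 2 = 2 - r ^ 2) (hK : K ≤ r * q)
    (hx : 2 * (1 + r) ^ 2 + 2 - 2 * K ≤ s ^ 2 + ‖f + b‖ ^ 2) :
    2 * K - 2 + ‖b‖ ^ 2 + inner ℝ f b + (inner ℝ f e - inner ℝ b e) < s * ρ := by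
  have hF := sq_le_one_of hf
  have hB := sq_le_one_of hb
  have hG := sq_le_one_of he
  have hF0 := sq_nonneg ‖f‖
  have hB0 := sq_nonneg ‖b‖
  have hG0 := sq_nonneg ‖e‖
  have hfb2 : ‖f + b‖ ≤ 2 := (norm_add_le f b).trans (by linarith)
  have hfb4 : ‖f + b‖ ^ 2 ≤ 4 := by
    have := pow_le_pow_left₀ (norm_nonneg (f + b)) hfb2 2
    linarith
  rw [norm_sub_sq_real] at hρ1
  rw [norm_add_sq_real] at hρ2 hx hfb4
  have hfb0 : 0 ≤ ‖f‖ ^ 2 + 2 * inner ℝ f b + ‖b‖ ^ 2 := by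
    rw [← norm_add_sq_real]; positivity
  -- lengths
  have hn1 : ‖f - b‖ ^ 2 = ‖f‖ ^ 2 - 2 * inner ℝ f b + ‖b‖ ^ 2 := norm_sub_sq_real f b
  have hn1' : 0 ≤ ‖f - b‖ ^ 2 := sq_nonneg _
  obtain ⟨z, hz⟩ : ∃ z : ℝ, z = (4 - (‖f‖ ^ 2 + 2 * inner ℝ f b + ‖b‖ ^ 2)) / 2 := ⟨_, rfl⟩
  have hfb : inner ℝ f b = 2 - z - (‖f‖ ^ 2 + ‖b‖ ^ 2) / 2 := by rw [hz]; ring
  have hz0 : 0 ≤ z := by linarith
  have hz2 : z ≤ 2 := by linarith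
  have hs2 : 2 * (2 * r + r ^ 2 - K) + 2 * z ≤ s ^ 2 := by rw [hz]; linarith
  rcases le_total z 1 with hz1 | hz1
  · -- small case
    obtain ⟨w, hw0, hw⟩ : ∃ w : ℝ, 0 ≤ w ∧ w ^ 2 = z * (2 - z) :=
      ⟨Real.sqrt (z * (2 - z)), Real.sqrt_nonneg _, Real.sq_sqrt (mul_nonneg hz0 (by linarith))⟩
    have hzF : 1 - ‖f‖ ^ 2 ≤ z := by rw [hn1, hfb] at hn1'; linarith
    have hwz : z ≤ w := by
      apply le_of_sq_le_sq _ hw0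
      have h5 := mul_nonneg hz0 (sub_nonneg.2 hz1)
      rw [hw]; linarith
    -- a1
    have ha1 : ‖f - b + z • b‖ ≤ w - (1 - ‖f‖ ^ 2) / 2 := by
      have h0 : 0 ≤ w - (1 - ‖f‖ ^ 2) / 2 := by linarith
      apply le_of_sq_le_sq _ h0
      rw [norm_add_sq_real, norm_smul, inner_smul_right, inner_sub_left, real_inner_self_eq_norm_sq,
        mul_pow, Real.norm_eq_abs, sq_abs, hn1, hfb]
      have h1 : w * (1 - ‖f‖ ^ 2) ≤ (2 - z) * (1 - ‖f‖ ^ 2) := by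
        apply mul_le_mul_of_nonneg_right _ (by linarith)
        apply le_of_sq_le_sq _ (by linarith)
        have h5 := mul_nonneg (sub_nonneg.2 hz2) (sub_nonneg.2 hz1)
        rw [hw]; linarith
      have h2 : (w - (1 - ‖f‖ ^ 2) / 2) ^ 2 = z * (2 - z) - w * (1 - ‖f‖ ^ 2) + (1 - ‖f‖ ^ 2) ^ 2 / 4 := by
        rw [← hw]; ring
      rw [h2]
      have h3 : 0 ≤ (1 - ‖b‖ ^ 2) * ((1 - z) * (2 - z)) :=
        mul_nonneg (by linarith) (mul_nonneg (by linarith) (by linarith))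
      have h4 := sq_nonneg (1 - ‖f‖ ^ 2)
      linarith
    rcases le_total 0 (inner ℝ b e) with hbe | hbe
    · have hmain := scalar_small (M := 0) (m := 1) hr0 hq0 hq hK hs hs2 hρ0 (by linarith) hz0 hz1
        hw0 hw le_rfl zero_le_one (by norm_num)
      have hin : inner ℝ (f - b + z • b) e ≤ ‖f - b + z • b‖ * ‖e‖ := real_inner_le_norm _ _
      rw [inner_add_left, inner_sub_left, real_inner_smul_left] at hin
      have h1 : ‖f - b + z • b‖ * ‖e‖ ≤ (w - (1 - ‖f‖ ^ 2) / 2) * 1 :=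
        mul_le_mul ha1 he (norm_nonneg _) (le_trans (norm_nonneg _) ha1)
      have h2 : 0 ≤ z * inner ℝ b e := mul_nonneg hz0 hbe
      rw [hfb]
      linarith
    · obtain ⟨M, hM⟩ : ∃ M : ℝ, M = - inner ℝ b e := ⟨_, rfl⟩
      have hM0 : 0 ≤ M := by linarith
      have hM1 : M ≤ 1 := by
        have := inner_bound b e
        have h2 : ‖b‖ * ‖e‖ ≤ 1 * 1 := mul_le_mul hb he (norm_nonneg _) zero_le_one
        linarith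
      have hbe' : inner ℝ b e = - M := by linarith
      obtain ⟨m, hm0, hm⟩ : ∃ m : ℝ, 0 ≤ m ∧ m ^ 2 = 1 - M ^ 2 :=
        ⟨Real.sqrt (1 - M ^ 2), Real.sqrt_nonneg _, Real.sq_sqrt (by
          have := pow_le_pow_left₀ hM0 hM1 2
          linarith)⟩
      have hmain := scalar_small (M := M) (m := m) hr0 hq0 hq hK hs hs2 hρ0 (by linarith) hz0 hz1
        hw0 hw hM0 hM1 hm
      have hmM : 1 ≤ m + M := by
        apply le_of_sq_le_sq _ (by linarith)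
        have h5 := mul_nonneg hm0 hM0
        linarith
      have ha2 : ‖e + M • b‖ ≤ m := by
        apply le_of_sq_le_sq _ hm0
        rw [norm_add_sq_real, norm_smul, inner_smul_right, mul_pow, Real.norm_eq_abs, sq_abs, hm,
          real_inner_comm, hbe']
        have h5 : 0 ≤ M ^ 2 * (1 - ‖b‖ ^ 2) := mul_nonneg (sq_nonneg M) (by linarith)
        linarith
      have hin : inner ℝ (f - b + z • b) (e + M • b) ≤ ‖f - b + z • b‖ * ‖e + M • b‖ :=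
        real_inner_le_norm _ _
      have h1 : ‖f - b + z • b‖ * ‖e + M • b‖ ≤ (w - (1 - ‖f‖ ^ 2) / 2) * m :=
        mul_le_mul ha1 ha2 (norm_nonneg _) (le_trans (norm_nonneg _) ha1)
      simp only [inner_add_left, inner_sub_left, real_inner_smul_left, inner_add_right,
        real_inner_smul_right, real_inner_self_eq_norm_sq, hbe', hfb] at hin
      rw [hbe', hfb]
      have h3 : 0 ≤ (1 - ‖f‖ ^ 2) * (m + M - 1) := mul_nonneg (by linarith) (by linarith)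
      have h4 : 0 ≤ (1 - ‖b‖ ^ 2) * (M * (3 / 2 - z) + 1 / 2) := by
        apply mul_nonneg (by linarith)
        have : 0 ≤ M * (3 / 2 - z) := mul_nonneg hM0 (by linarith)
        linarith
      linarith
  · -- big case
    obtain ⟨Y, hY0, hY⟩ : ∃ Y : ℝ, 0 ≤ Y ∧ Y ^ 2 = 2 * z :=
      ⟨Real.sqrt (2 * z), Real.sqrt_nonneg _, Real.sq_sqrt (by linarith)⟩
    have hY2 : Y ≤ 2 := by
      apply le_of_sq_le_sq _ zero_le_two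
      rw [hY]; linarith
    have hY1 : 1 ≤ Y := by
      apply le_of_sq_le_sq _ hY0
      rw [hY]; linarith
    have hmain := scalar_big hr0 hq hK hs hs2 hρ0 (by linarith) hz1 hY0 hY
    have ha1 : ‖f - b‖ ≤ Y - (1 - ‖f‖ ^ 2) / 2 := by
      have h0 : 0 ≤ Y - (1 - ‖f‖ ^ 2) / 2 := by linarith
      apply le_of_sq_le_sq _ h0
      rw [hn1, hfb]
      have h2 : (Y - (1 - ‖f‖ ^ 2) / 2) ^ 2 = 2 * z - Y * (1 - ‖f‖ ^ 2) + (1 - ‖f‖ ^ 2) ^ 2 / 4 := by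
        rw [← hY]; ring
      rw [h2]
      have h3 : Y * (1 - ‖f‖ ^ 2) ≤ 2 * (1 - ‖f‖ ^ 2) :=
        mul_le_mul_of_nonneg_right hY2 (by linarith)
      have h4 := sq_nonneg (1 - ‖f‖ ^ 2)
      linarith
    have hin : inner ℝ (f - b) e ≤ ‖f - b‖ * ‖e‖ := real_inner_le_norm _ _
    have h1 : ‖f - b‖ * ‖e‖ ≤ (Y - (1 - ‖f‖ ^ 2) / 2) * 1 :=
      mul_le_mul ha1 he (norm_nonneg _) (le_trans (norm_nonneg _) ha1)
    rw [inner_sub_left] at hin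
    rw [hfb]
    linarith

/-- the line with order `1 3 4 2`; here `a, b, d` belong to `1, 3, 2` -/
theorem sideB {a b d : V} {T U : ℝ} (hT : 0 ≤ T) (hU : 0 ≤ U)
    (ha : ‖a‖ ≤ 1) (hb : ‖b‖ ≤ 1) (hd : ‖d‖ ≤ 1)
    (h13 : 4 ≤ T ^ 2 + ‖a - b‖ ^ 2) (h32 : 4 ≤ U ^ 2 + ‖b - d‖ ^ 2)
    (hU2 : 4 ≤ U ^ 2 + ‖b + d‖ ^ 2) :
    ∃ r q K : ℝ, 0 ≤ r ∧ 0 ≤ q ∧ q ^ 2 = 2 - r ^ 2 ∧ K ≤ r * q ∧
      2 * (1 + r) ^ 2 + 2 - 2 * K ≤ (T + U) ^ 2 + ‖a - d‖ ^ 2 ∧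
      4 * inner ℝ a d - (U ^ 2 + ‖b - d‖ ^ 2) ≤ 4 * K - 4 := by
  obtain ⟨hR0, hR2, hR3, hR1⟩ := root_two_facts
  have hA := sq_le_one_of ha
  have hB := sq_le_one_of hb
  have hD := sq_le_one_of hd
  have hA0 := sq_nonneg ‖a‖
  have hB0 := sq_nonneg ‖b‖
  have hD0 := sq_nonneg ‖d‖
  have hab2 : ‖a - b‖ ≤ 2 := (norm_sub_le a b).trans (by linarith)
  have hab4 : ‖a - b‖ ^ 2 ≤ 4 := by
    have := pow_le_pow_left₀ (norm_nonneg (a - b)) hab2 2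
    linarith
  rw [norm_sub_sq_real] at h13 h32 hab4
  rw [norm_add_sq_real] at hU2
  rw [norm_sub_sq_real a d, norm_sub_sq_real b d]
  -- r0
  obtain ⟨r₀, hr₀, hr₀2⟩ : ∃ r₀ : ℝ, 0 ≤ r₀ ∧
      r₀ ^ 2 = (4 - (‖a‖ ^ 2 - 2 * inner ℝ a b + ‖b‖ ^ 2)) / 2 :=
    ⟨Real.sqrt _, Real.sqrt_nonneg _, Real.sq_sqrt (by linarith)⟩
  have hg : inner ℝ a b = r₀ ^ 2 - 2 + (‖a‖ ^ 2 + ‖b‖ ^ 2) / 2 := by rw [hr₀2]; ring
  have hTr : Real.sqrt 2 * r₀ ≤ T := by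
    apply le_of_sq_le_sq _ hT
    rw [mul_pow, hR2, hr₀2]; linarith
  have hUr : Real.sqrt 2 ≤ U := by
    apply le_of_sq_le_sq _ hU
    rw [hR2]
    linarith
  have hTU : 2 * r₀ ≤ T * U := by
    have := mul_le_mul hTr hUr hR0.le hT
    have h2 : Real.sqrt 2 * r₀ * Real.sqrt 2 = 2 * r₀ := by
      calc Real.sqrt 2 * r₀ * Real.sqrt 2 = Real.sqrt 2 ^ 2 * r₀ := by ring
        _ = 2 * r₀ := by rw [hR2]
    linarith
  -- K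
  obtain ⟨β, hβ⟩ : ∃ β : ℝ, β = inner ℝ b d := ⟨_, rfl⟩
  obtain ⟨k, hk⟩ : ∃ k : ℝ, k = inner ℝ a d := ⟨_, rfl⟩
  rw [← hβ] at h32 hU2 ⊢
  rw [← hk]
  obtain ⟨μ, hμ⟩ : ∃ μ : ℝ, μ = min 0 β := ⟨_, rfl⟩
  have hμ0 : μ ≤ 0 := by rw [hμ]; exact min_le_left _ _
  have hμβ : μ ≤ β := by rw [hμ]; exact min_le_right _ _
  have hμβ2 : 0 ≤ μ ∨ β ≤ μ := by
    rcases le_total 0 β with h | h
    · left; rw [hμ]; simp [h]
    · right; rw [hμ]; simp [h]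
  obtain ⟨δ, hδ⟩ : ∃ δ : ℝ, δ = max 0 ((‖b‖ ^ 2 - ‖a‖ ^ 2) / 2) := ⟨_, rfl⟩
  have hδ0 : 0 ≤ δ := by rw [hδ]; exact le_max_left _ _
  have hδ1 : (‖b‖ ^ 2 - ‖a‖ ^ 2) / 2 ≤ δ := by rw [hδ]; exact le_max_right _ _
  have hδ2 : δ ≤ (1 - ‖a‖ ^ 2) / 2 := by rw [hδ]; apply max_le <;> linarith
  have hmain1 : 2 * r₀ ^ 2 + 4 * r₀ + 4 - 2 * (k + μ + δ)
      ≤ (T + U) ^ 2 + (‖a‖ ^ 2 - 2 * k + ‖d‖ ^ 2) := by
    rcases hμβ2 with h | h <;> nlinarith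
  have hmain2 : 4 * k - (U ^ 2 + (‖b‖ ^ 2 - 2 * β + ‖d‖ ^ 2)) ≤ 4 * (k + μ + δ) - 4 := by
    rcases hμβ2 with h | h <;> linarith
  rcases le_total r₀ 1 with h1 | h1
  · -- r₀ ≤ 1
    have hr1 : r₀ ^ 2 ≤ 1 := by
      have := pow_le_pow_left₀ hr₀ h1 2
      linarith
    refine ⟨r₀, Real.sqrt (2 - r₀ ^ 2), k + μ + δ, hr₀, Real.sqrt_nonneg _,
      Real.sq_sqrt (by linarith), ?_, by linarith, hmain2⟩
    obtain ⟨C, hC⟩ : ∃ C : ℝ, C = - inner ℝ a b := ⟨_, rfl⟩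
    have hC' : inner ℝ a b = - C := by linarith
    have hC0 : 0 ≤ C := by rw [hC, hg]; linarith
    have hC1 : C ≤ 1 := by
      have h2 := inner_bound a b
      have h3 : ‖a‖ * ‖b‖ ≤ 1 * 1 := mul_le_mul ha hb (norm_nonneg _) zero_le_one
      linarith
    have hCg : 1 - r₀ ^ 2 + δ ≤ C := by
      rw [hC, hg, hδ]
      have : max 0 ((‖b‖ ^ 2 - ‖a‖ ^ 2) / 2) ≤ 1 - (‖a‖ ^ 2 + ‖b‖ ^ 2) / 2 := by
        apply max_le <;> linarith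
      linarith
    obtain ⟨n, hn⟩ : ∃ n : ℝ, n = ‖a + C • b‖ := ⟨_, rfl⟩
    have hn0 : 0 ≤ n := by rw [hn]; exact norm_nonneg _
    have hn2 : n ^ 2 ≤ ‖a‖ ^ 2 - C ^ 2 := by
      rw [hn, norm_add_sq_real, norm_smul, inner_smul_right, mul_pow, Real.norm_eq_abs, sq_abs, hC']
      have h5 : 0 ≤ C ^ 2 * (1 - ‖b‖ ^ 2) := mul_nonneg (sq_nonneg C) (by linarith)
      linarith
    have hn1 : n ≤ 1 := by
      apply le_of_sq_le_sq _ zero_le_one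
      nlinarith [sq_nonneg C]
    have hKn : k + μ ≤ n := by
      have h2 : inner ℝ (a + C • b) d ≤ ‖a + C • b‖ * ‖d‖ := real_inner_le_norm _ _
      rw [inner_add_left, real_inner_smul_left, ← hk, ← hβ, ← hn] at h2
      have h3 : n * ‖d‖ ≤ n * 1 := mul_le_mul_of_nonneg_left hd hn0
      have h4 : μ ≤ C * β := by
        rcases le_total 0 β with h | h
        · have := mul_nonneg hC0 h
          linarith
        · have : 0 ≤ (1 - C) * (-β) := mul_nonneg (by linarith) (by linarith)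
          linarith
      linarith
    have hfin : n + δ ≤ r₀ * Real.sqrt (2 - r₀ ^ 2) := by
      apply le_of_sq_le_sq _ (mul_nonneg hr₀ (Real.sqrt_nonneg _))
      rw [mul_pow, Real.sq_sqrt (by linarith)]
      have h2 : n * δ ≤ 1 * δ := mul_le_mul_of_nonneg_right hn1 hδ0
      have h3 : (1 - r₀ ^ 2 + δ) ^ 2 ≤ C ^ 2 := pow_le_pow_left₀ (by linarith) hCg 2
      have h4 : 0 ≤ (1 - r₀ ^ 2) * δ := mul_nonneg (by linarith) hδ0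
      nlinarith
    linarith
  · -- 1 ≤ r₀
    refine ⟨1, 1, k + μ + δ, zero_le_one, zero_le_one, by norm_num, ?_, ?_, hmain2⟩
    · have h2 : inner ℝ a d ≤ ‖a‖ * ‖d‖ := real_inner_le_norm _ _
      rw [← hk] at h2
      have h3 : ‖a‖ * ‖d‖ ≤ ‖a‖ * 1 := mul_le_mul_of_nonneg_left hd (norm_nonneg _)
      nlinarith [sq_nonneg (1 - ‖a‖)]
    · have : 1 ≤ r₀ ^ 2 := by
        have := pow_le_pow_left₀ zero_le_one h1 2
        linarith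
      linarith

end Pool.Agent.Helper52.GP
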