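import Pool.Agent.Helper52.GP.Pair
import Pool.Agent.Helper52.GP.Comb

/-!
From line transversals to height functions.
-/

namespace Pool.Agent.Helper52.GP

open Metric

variable {V : Type*} [NormedAddCommGroup V] [InnerProductSpace ℝ V] {ι : Type*}

/-- height of `x` along `u` -/
noncomputable def ht (u x : V) : ℝ := inner ℝ u x / ‖u‖

/-- component of `x` orthogonal to `u` -/
noncomputable def perp (u x : V) : V := x - (inner ℝ u x / ‖u‖ ^ 2) • u

theorem ht_sub (u x y : V) : ht u (x - y) = ht u x - ht u y := by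
  unfold ht
  rw [inner_sub_right]
  ring

theorem perp_sub (u x y : V) : perp u (x - y) = perp u x - perp u y := by
  unfold perp
  rw [inner_sub_right, sub_div, sub_smul]
  abel

theorem norm_sq_eq {u : V} (hu : u ≠ 0) (x : V) : ‖x‖ ^ 2 = ht u x ^ 2 + ‖perp u x‖ ^ 2 := by
  unfold ht perp
  have h0 : ‖u‖ ≠ 0 := norm_ne_zero_iff.2 hu
  rw [norm_sub_sq_real, norm_smul, inner_smul_right, mul_pow, Real.norm_eq_abs, sq_abs,
    real_inner_comm]
  field_simp
  ring

theorem norm_line {u : V} (hu : u ≠ 0) (o x : V) (s : ℝ) :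
    ‖o + s • u - x‖ ^ 2 = (s * ‖u‖ - ht u (x - o)) ^ 2 + ‖perp u (x - o)‖ ^ 2 := by
  have h0 : ‖u‖ ≠ 0 := norm_ne_zero_iff.2 hu
  have e1 : o + s • u - x = s • u - (x - o) := by abel
  rw [e1, norm_sq_eq hu, ht_sub, perp_sub]
  have e2 : ht u (s • u) = s * ‖u‖ := by
    unfold ht
    rw [inner_smul_right, real_inner_self_eq_norm_sq]
    field_simp
  have e3 : perp u (s • u) = 0 := by
    unfold perp
    rw [inner_smul_right, real_inner_self_eq_norm_sq]
    have : s * ‖u‖ ^ 2 / ‖u‖ ^ 2 = s := by field_simp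
    rw [this, sub_self]
  rw [e2, e3, zero_sub, norm_neg]

theorem mem_iff {u : V} (hu : u ≠ 0) (o x : V) (s : ℝ) :
    o + s • u ∈ closedBall x 1 ↔ (s * ‖u‖ - ht u (x - o)) ^ 2 + ‖perp u (x - o)‖ ^ 2 ≤ 1 := by
  rw [mem_closedBall, dist_eq_norm, ← norm_line hu]
  constructor
  · intro h
    have := pow_le_pow_left₀ (norm_nonneg _) h 2
    linarith
  · intro h
    apply le_of_sq_le_sq _ zero_le_one
    linarith

/-- the heights of the centres along a transversal -/
theorem isH_of {c : ι → V} {o u : V} (hu : u ≠ 0) (ht' : ∀ i, ∃ t : ℝ, o + t • u ∈ closedBall (c i) 1) :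
    IsH c (fun i => ht u (c i - o)) := by
  refine ⟨fun i => perp u (c i - o), fun i => ?_, fun i j => ?_⟩
  · obtain ⟨t, ht⟩ := ht' i
    rw [mem_iff hu] at ht
    apply le_of_sq_le_sq _ zero_le_one
    nlinarith [sq_nonneg (t * ‖u‖ - Pool.Agent.Helper52.GP.ht u (c i - o))]
  · have e : c i - c j = (c i - o) - (c j - o) := by abel
    rw [e, norm_sq_eq hu, ht_sub, perp_sub]

theorem before_iff {c : ι → V} (hD : ∀ i j, i ≠ j → 4 < ‖c i - c j‖ ^ 2) {o u : V} (hu : u ≠ 0)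
    (ht' : ∀ i, ∃ t : ℝ, o + t • u ∈ closedBall (c i) 1) (i j : ι) :
    (∀ s t : ℝ, o + s • u ∈ closedBall (c i) 1 → o + t • u ∈ closedBall (c j) 1 → s < t) ↔
      ht u (c i - o) < ht u (c j - o) := by
  have hu0 : 0 < ‖u‖ := norm_pos_iff.2 hu
  obtain ⟨p, hp, hc⟩ := isH_of hu ht'
  have hperp : ∀ i, ‖perp u (c i - o)‖ ^ 2 ≤ 1 := by
    intro i
    obtain ⟨t, ht⟩ := ht' i
    rw [mem_iff hu] at ht
    nlinarith [sq_nonneg (t * ‖u‖ - Pool.Agent.Helper52.GP.ht u (c i - o))]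
  constructor
  · intro h
    have h1 := h (ht u (c i - o) / ‖u‖) (ht u (c j - o) / ‖u‖)
      (by rw [mem_iff hu, div_mul_cancel₀ _ hu0.ne', sub_self]; simpa using hperp i)
      (by rw [mem_iff hu, div_mul_cancel₀ _ hu0.ne', sub_self]; simpa using hperp j)
    exact (div_lt_div_iff_of_pos_right hu0).1 h1
  · intro h s t hs ht1
    rw [mem_iff hu] at hs ht1
    by_contra hst
    push Not at hst
    have hne : i ≠ j := by rintro rfl; exact lt_irrefl _ h
    have h4 := hD i j hne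
    have e : c i - c j = (c i - o) - (c j - o) := by abel
    rw [e, norm_sq_eq hu, ht_sub, perp_sub] at h4
    have h5 : ‖perp u (c i - o) - perp u (c j - o)‖ ^ 2 + ‖perp u (c i - o) + perp u (c j - o)‖ ^ 2
        = 2 * ‖perp u (c i - o)‖ ^ 2 + 2 * ‖perp u (c j - o)‖ ^ 2 := by
      rw [norm_sub_sq_real, norm_add_sq_real]; ring
    have h6 := sq_nonneg ‖perp u (c i - o) + perp u (c j - o)‖
    have h7 : t * ‖u‖ ≤ s * ‖u‖ := mul_le_mul_of_nonneg_right hst hu0.le
    have h8 : (ht u (c j - o) - ht u (c i - o)) ^ 2 ≤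
        ((s * ‖u‖ - ht u (c i - o)) + (ht u (c j - o) - t * ‖u‖)) ^ 2 :=
      pow_le_pow_left₀ (by linarith) (by linarith) 2
    have h9 := sq_nonneg ((s * ‖u‖ - ht u (c i - o)) - (ht u (c j - o) - t * ‖u‖))
    nlinarith

/-- height functions of disjoint unit balls form an admissible family -/
theorem fam {c : ι → V} (hD : ∀ i j, i ≠ j → 4 < ‖c i - c j‖ ^ 2) : Fam (IsH c) where
  neg := fun _ H => H.neg
  inj := fun _ H => IsH.inj hD H
  HA := fun _ _ H H' _ _ _ _ a1 a2 a3 b1 b2 b3 => typeA hD H H' a1 a2 a3 b1 b2 b3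
  HB := fun _ _ H H' _ _ _ _ a1 a2 a3 b1 b2 b3 => typeB hD H H' a1 a2 a3 b1 b2 b3

end Pool.Agent.Helper52.GP
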