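import Pool.Agent.Helper52.GP.Geom

/-!
Incompatibility of pairs of orders of four disjoint unit balls.
-/

namespace Pool.Agent.Helper52.GP

set_option linter.unusedSectionVars false

variable {V : Type*} [NormedAddCommGroup V] [InnerProductSpace ℝ V] {ι : Type*}

/-- `h` is the height function of the centres along a line at distance at most one from all of
them. -/
def IsH (c : ι → V) (h : ι → ℝ) : Prop :=
  ∃ p : ι → V, (∀ i, ‖p i‖ ≤ 1) ∧ ∀ i j, ‖c i - c j‖ ^ 2 = (h i - h j) ^ 2 + ‖p i - p j‖ ^ 2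

theorem IsH.neg {c : ι → V} {h : ι → ℝ} (H : IsH c h) : IsH c (fun i => - h i) := by
  obtain ⟨p, hp, hc⟩ := H
  refine ⟨p, hp, fun i j => ?_⟩
  rw [hc i j]
  ring

theorem IsH.four_lt {c : ι → V} {h : ι → ℝ} {p : ι → V}
    (hD : ∀ i j, i ≠ j → 4 < ‖c i - c j‖ ^ 2)
    (hc : ∀ i j, ‖c i - c j‖ ^ 2 = (h i - h j) ^ 2 + ‖p i - p j‖ ^ 2) {i j : ι} (hij : h i < h j) :
    4 < (h j - h i) ^ 2 + ‖p i - p j‖ ^ 2 := by
  have hne : i ≠ j := by rintro rfl; exact lt_irrefl _ hij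
  have h1 := hD i j hne
  rw [hc i j] at h1
  have h2 : (h i - h j) ^ 2 = (h j - h i) ^ 2 := by ring
  rwa [h2] at h1

theorem IsH.inj {c : ι → V} {h : ι → ℝ} (hD : ∀ i j, i ≠ j → 4 < ‖c i - c j‖ ^ 2)
    (H : IsH c h) : Function.Injective h := by
  obtain ⟨p, hp, hc⟩ := H
  intro i j hij
  by_contra hne
  have h1 := hD i j hne
  rw [hc i j, hij] at h1
  have h2 : ‖p i - p j‖ ≤ 2 := (norm_sub_le _ _).trans (by linarith [hp i, hp j])
  have h3 := pow_le_pow_left₀ (norm_nonneg _) h2 2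
  simp at h1
  linarith

theorem outer {c : ι → V} {h : ι → ℝ} (hD : ∀ i j, i ≠ j → 4 < ‖c i - c j‖ ^ 2)
    (H : IsH c h) {i j k l : ι} (hij : h i < h j) (hjk : h j < h k) (hkl : h k < h l) :
    ‖c j - c k‖ ^ 2 < ‖c i - c l‖ ^ 2 := by
  obtain ⟨p, hp, hc⟩ := H
  have h12 := IsH.four_lt hD hc hij
  have h34 := IsH.four_lt hD hc hkl
  have h13 := IsH.four_lt hD hc (hij.trans hjk)
  have h24 := IsH.four_lt hD hc (hjk.trans hkl)
  have key := outer_lt (X := h j - h i) (Y := h k - h j) (Z := h l - h k)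
    (by linarith) (by linarith) (by linarith) (hp i) (hp j) (hp k) (hp l) h12 h34
    (by convert h13 using 3; ring) (by convert h24 using 3; ring)
  rw [hc j k, hc i l]
  calc (h j - h k) ^ 2 + ‖p j - p k‖ ^ 2 = (h k - h j) ^ 2 + ‖p j - p k‖ ^ 2 := by ring
    _ < _ := key
    _ = _ := by ring

theorem typeA {c : ι → V} {h h' : ι → ℝ} (hD : ∀ i j, i ≠ j → 4 < ‖c i - c j‖ ^ 2)
    (H : IsH c h) (H' : IsH c h') {i j k l : ι} (hij : h i < h j) (hjk : h j < h k) (hkl : h k < h l)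
    (hji : h' j < h' i) (hil : h' i < h' l) (hlk : h' l < h' k) : False := by
  have h1 := outer hD H hij hjk hkl
  have h2 := outer hD H' hji hil hlk
  exact lt_asymm h1 h2

theorem typeB {c : ι → V} {h h' : ι → ℝ} (hD : ∀ i j, i ≠ j → 4 < ‖c i - c j‖ ^ 2)
    (H : IsH c h) (H' : IsH c h') {i₁ i₂ i₃ i₄ : ι}
    (h12 : h i₁ < h i₂) (h23 : h i₂ < h i₃) (h34 : h i₃ < h i₄)
    (h13' : h' i₁ < h' i₃) (h34' : h' i₃ < h' i₄) (h42' : h' i₄ < h' i₂) : False := by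
  obtain ⟨p, hp, hc⟩ := H
  obtain ⟨p', hp', hc'⟩ := H'
  -- second line
  have a13 := IsH.four_lt hD hc' h13'
  have a34 := IsH.four_lt hD hc' h34'
  have a42 := IsH.four_lt hD hc' h42'
  have a32 := IsH.four_lt hD hc' (h34'.trans h42')
  have a14 := IsH.four_lt hD hc' (h13'.trans h34')
  have aU := path_lt (X := h' i₄ - h' i₃) (Y := h' i₂ - h' i₄) (by linarith) (by linarith)
    (hp' i₃) (hp' i₄) (hp' i₂) a34 a42
  have aY := tie_le (X := h' i₄ - h' i₁) (Y := h' i₂ - h' i₄) (by linarith) (by linarith)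
    (hp' i₁) (hp' i₄) (hp' i₂) a14 a42
  have aU' : 4 < (h' i₂ - h' i₃) ^ 2 + ‖p' i₃ + p' i₂‖ ^ 2 := by
    have e : h' i₂ - h' i₃ = (h' i₄ - h' i₃) + (h' i₂ - h' i₄) := by ring
    rw [e]; exact aU
  obtain ⟨r, q, K, hr, hq, hqr, hK, hx, hy⟩ := sideB (T := h' i₃ - h' i₁) (U := h' i₂ - h' i₃)
    (by linarith) (by linarith) (hp' i₁) (hp' i₃) (hp' i₂) a13.le a32.le aU'.le
  -- first line
  have b12 := IsH.four_lt hD hc h12
  have b23 := IsH.four_lt hD hc h23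
  have b34 := IsH.four_lt hD hc h34
  have b24 := IsH.four_lt hD hc (h23.trans h34)
  have bρ := path_lt (X := h i₃ - h i₂) (Y := h i₄ - h i₃) (by linarith) (by linarith)
    (hp i₂) (hp i₃) (hp i₄) b23 b34
  have bρ' : 4 < (h i₄ - h i₂) ^ 2 + ‖p i₂ + p i₄‖ ^ 2 := by
    have e : h i₄ - h i₂ = (h i₃ - h i₂) + (h i₄ - h i₃) := by ring
    rw [e]; exact bρ
  have bv := tie_le (X := h i₃ - h i₂) (Y := h i₄ - h i₃) (by linarith) (by linarith)
    (hp i₂) (hp i₃) (hp i₄) b23 b34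
  have g1 : ‖-p i₁ + p i₂‖ = ‖p i₁ - p i₂‖ := by
    have : - p i₁ + p i₂ = -(p i₁ - p i₂) := by abel
    rw [this, norm_neg]
  have key := sideL (f := - p i₁) (b := p i₂) (e := - p i₄) (s := h i₂ - h i₁) (ρ := h i₄ - h i₂)
    (r := r) (q := q) (K := K)
    (by linarith) (by linarith) (by rw [norm_neg]; exact hp i₁) (hp i₂)
    (by rw [norm_neg]; exact hp i₄)
    (by rw [sub_neg_eq_add]; exact bρ')
    (by rw [← sub_eq_add_neg]; exact b24) hr hq hqr hK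
    (by
      rw [g1]
      have e1 := hc i₁ i₂
      have e2 := hc' i₁ i₂
      have e3 : (h i₂ - h i₁) ^ 2 = (h i₁ - h i₂) ^ 2 := by ring
      have e4 : (h' i₃ - h' i₁ + (h' i₂ - h' i₃)) ^ 2 = (h' i₁ - h' i₂) ^ 2 := by ring
      rw [e4, ← e2] at hx
      rw [e3, ← e1]
      exact hx)
  have S1 : ‖c i₁ - c i₄‖ ^ 2 ≤ ‖c i₁ - c i₂‖ ^ 2 + 4 * inner ℝ (p' i₁) (p' i₂) := by
    rw [hc' i₁ i₄, hc' i₁ i₂]
    rw [norm_add_sq_real] at aY
    rw [norm_sub_sq_real (p' i₁) (p' i₂)]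
    linarith
  have S2 : 4 * inner ℝ (p' i₁) (p' i₂) - ‖c i₂ - c i₃‖ ^ 2 ≤ 4 * K - 4 := by
    rw [hc' i₂ i₃, norm_sub_rev (p' i₂) (p' i₃)]
    linarith
  have F1 : ‖c i₂ - c i₃‖ ^ 2 ≤ (h i₄ - h i₂) ^ 2 + ‖p i₂ + p i₄‖ ^ 2 := by
    rw [hc i₂ i₃]
    linarith
  have F2 := hc i₁ i₂
  have F3 := hc i₁ i₄
  simp only [inner_neg_left, inner_neg_right] at key
  rw [norm_add_sq_real] at F1
  rw [norm_sub_sq_real (p i₁)] at F2 F3
  linarith

end Pool.Agent.Helper52.GP
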