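import Mathlib

/-!
Scalar inequalities for the geometric permutation theorem.
-/

namespace Pool.Agent.Helper52.GP

/-- the key polynomial inequality -/
theorem star0 {r q c w : ℝ} (hr : 0 ≤ r) (hq : q ^ 2 = 2 - r ^ 2) (hcw : c ^ 2 + w ^ 2 = 1) :
    (2 * (r * q) - 1 + c + w) ^ 2 ≤ 4 * (2 * r + r ^ 2 - r * q) + 4 - 4 * c := by
  have h1 : 0 ≤ r * (c + w - q) ^ 2 := mul_nonneg hr (sq_nonneg _)
  have h2 : 0 ≤ (r + 1 / 2) * (c - w) ^ 2 - (c - w) + 1 / 2 + 2 * r ^ 4 + r ^ 3 - 2 * r ^ 2 := by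
    have h3 : 0 ≤ ((2 * r + 1) * (c - w) - 1) ^ 2 + 2 * r * (2 * r ^ 2 + r - 1) ^ 2 := by positivity
    have h4 : (2 * r + 1) * (2 * ((r + 1 / 2) * (c - w) ^ 2 - (c - w) + 1 / 2 + 2 * r ^ 4 + r ^ 3
        - 2 * r ^ 2)) = ((2 * r + 1) * (c - w) - 1) ^ 2 + 2 * r * (2 * r ^ 2 + r - 1) ^ 2 := by ring
    have h5 : 0 < 2 * r + 1 := by linarith
    by_contra hneg
    push Not at hneg
    have : (2 * r + 1) * (2 * ((r + 1 / 2) * (c - w) ^ 2 - (c - w) + 1 / 2 + 2 * r ^ 4 + r ^ 3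
        - 2 * r ^ 2)) < 0 := mul_neg_of_pos_of_neg h5 (by linarith)
    linarith
  have h6 : 4 * (2 * r + r ^ 2 - r * q) + 4 - 4 * c - (2 * (r * q) - 1 + c + w) ^ 2
      = 2 * (r * (c + w - q) ^ 2 + ((r + 1 / 2) * (c - w) ^ 2 - (c - w) + 1 / 2 + 2 * r ^ 4 + r ^ 3
        - 2 * r ^ 2)) + (1 - (c ^ 2 + w ^ 2)) * (4 * r + 2) + (q ^ 2 - (2 - r ^ 2)) * (-4 * r ^ 2 - 2 * r) := by
    ring
  rw [hcw, hq] at h6
  linarith

theorem root_two_facts : 0 < Real.sqrt 2 ∧ Real.sqrt 2 ^ 2 = 2 ∧ Real.sqrt 2 < 3 / 2 ∧ 1 < Real.sqrt 2 := by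
  have h := Real.sq_sqrt (show (0 : ℝ) ≤ 2 by norm_num)
  have h0 : 0 ≤ Real.sqrt 2 := Real.sqrt_nonneg 2
  refine ⟨by positivity, h, ?_, ?_⟩
  · nlinarith
  · nlinarith

/-- squares: from `a ^ 2 ≤ 2 * s ^ 2` -/
theorem le_root_mul {a s : ℝ} (hs : 0 ≤ s) (h : 0 ≤ a → a ^ 2 ≤ 2 * s ^ 2) : a ≤ Real.sqrt 2 * s := by
  obtain ⟨hR0, hR2, -, -⟩ := root_two_facts
  by_cases ha : 0 ≤ a
  · apply le_of_sq_le_sq _ (by positivity)
    have := h ha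
    calc a ^ 2 ≤ 2 * s ^ 2 := this
      _ = (Real.sqrt 2 * s) ^ 2 := by rw [mul_pow, hR2]
  · push Not at ha
    have : 0 ≤ Real.sqrt 2 * s := by positivity
    linarith

/-- final contradiction, case `z ≤ 1` -/
theorem scalar_small {r q K s ρ z w M m : ℝ} (hr0 : 0 ≤ r) (hq0 : 0 ≤ q)
    (hq : q ^ 2 = 2 - r ^ 2) (hK : K ≤ r * q) (hs : 0 < s)
    (hs2 : 2 * (2 * r + r ^ 2 - K) + 2 * z ≤ s ^ 2) (hρ0 : 0 ≤ ρ) (hρ : 2 + 2 * M < ρ ^ 2)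
    (hz0 : 0 ≤ z) (hz1 : z ≤ 1) (hw0 : 0 ≤ w) (hw : w ^ 2 = z * (2 - z))
    (hM0 : 0 ≤ M) (hM1 : M ≤ 1) (hm : m ^ 2 = 1 - M ^ 2) :
    2 * K + M * z + m * w - z < s * ρ := by
  obtain ⟨hR0, hR2, hR3, hR1⟩ := root_two_facts
  set R := Real.sqrt 2 with hR
  have hq2 : q ≤ 2 := by nlinarith [sq_nonneg r]
  have hrq : r * q ≤ 2 * r := by nlinarith
  -- step a
  have ha : 2 * K - z + w ≤ R * s := by
    apply le_root_mul hs.le
    intro hpos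
    have h1 := star0 (r := r) (q := q) (c := 1 - z) (w := w) hr0 hq (by rw [hw]; ring)
    have h2 : 2 * K - z + w ≤ 2 * (r * q) - 1 + (1 - z) + w := by linarith
    have h3 : (2 * K - z + w) ^ 2 ≤ (2 * (r * q) - 1 + (1 - z) + w) ^ 2 :=
      pow_le_pow_left₀ hpos h2 2
    nlinarith
  -- step b
  obtain ⟨y, hy0, hy⟩ : ∃ y : ℝ, 0 ≤ y ∧ y ^ 2 = z := ⟨Real.sqrt z, Real.sqrt_nonneg z, Real.sq_sqrt hz0⟩
  have hy1 : y ≤ 1 := by
    by_contra hcon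
    push Not at hcon
    nlinarith
  have hb : 2 * y ≤ R * s := by
    apply le_root_mul hs.le
    intro _
    nlinarith
  -- step c
  have hc : R * (1 + M / 2 - M ^ 2 / 4) < ρ := by
    have hpos : 0 ≤ 1 + M / 2 - M ^ 2 / 4 := by nlinarith
    apply lt_of_pow_lt_pow_left₀ 2 hρ0
    rw [mul_pow, hR2]
    have : (1 + M / 2 - M ^ 2 / 4) ^ 2 ≤ 1 + M := by
      have h1 : 0 ≤ M ^ 2 / 4 + M ^ 3 / 4 - M ^ 4 / 16 := by
        have : M ^ 4 ≤ M ^ 2 := by nlinarith [sq_nonneg M, sq_nonneg (M * M)]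
        have h3 : 0 ≤ M ^ 3 := by positivity
        nlinarith
      nlinarith
    nlinarith
  -- step e
  have hwy : y ≤ w := by
    apply le_of_sq_le_sq _ hw0
    rw [hw, hy]
    nlinarith
  have hmM : m ≤ 1 - M ^ 2 / 2 := by
    have h1 : 0 ≤ 1 - M ^ 2 / 2 := by nlinarith
    apply le_of_sq_le_sq _ h1
    rw [hm]
    nlinarith [sq_nonneg (M ^ 2)]
  have h1 : s * (R * (1 + M / 2 - M ^ 2 / 4)) < s * ρ := mul_lt_mul_of_pos_left hc hs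
  have h2 : 0 ≤ M / 2 - M ^ 2 / 4 := by nlinarith
  have h3 : 2 * y * (M / 2 - M ^ 2 / 4) ≤ R * s * (M / 2 - M ^ 2 / 4) :=
    mul_le_mul_of_nonneg_right hb h2
  have h4 : M * z ≤ M * y := by
    apply mul_le_mul_of_nonneg_left _ hM0
    rw [← hy]
    nlinarith
  have h5 : M ^ 2 / 2 * y ≤ (1 - m) * w := by
    apply mul_le_mul (by linarith) hwy hy0 (by nlinarith)
  nlinarith

/-- final contradiction, case `1 ≤ z` -/
theorem scalar_big {r q K s ρ z Y : ℝ} (hr0 : 0 ≤ r)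
    (hq : q ^ 2 = 2 - r ^ 2) (hK : K ≤ r * q) (hs : 0 < s)
    (hs2 : 2 * (2 * r + r ^ 2 - K) + 2 * z ≤ s ^ 2) (hρ0 : 0 ≤ ρ) (hρ : 2 < ρ ^ 2)
    (hz1 : 1 ≤ z) (hY0 : 0 ≤ Y) (hY : Y ^ 2 = 2 * z) :
    2 * K + Y - z < s * ρ := by
  obtain ⟨hR0, hR2, hR3, hR1⟩ := root_two_facts
  set R := Real.sqrt 2 with hR
  have hYR : R ≤ Y := by
    apply le_of_sq_le_sq _ hY0
    rw [hR2, hY]; linarith
  have h1 : Y - z ≤ R - 1 := by nlinarith [mul_nonneg (sub_nonneg.2 hYR) (show 0 ≤ Y + R - 2 by linarith)]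
  have hρR : R < ρ := by
    apply lt_of_pow_lt_pow_left₀ 2 hρ0
    rw [hR2]; exact hρ
  have h2 : s * R < s * ρ := mul_lt_mul_of_pos_left hρR hs
  have h3 : 2 * K + R - 1 ≤ R * s := by
    apply le_root_mul hs.le
    intro hpos
    have hqR : q ≤ R := by
      apply le_of_sq_le_sq _ hR0.le
      rw [hq, hR2]; nlinarith [sq_nonneg r]
    by_cases hK0 : 0 ≤ K
    · have h4 : R * K ≤ 2 * r := by
        have : K ≤ r * R := hK.trans (mul_le_mul_of_nonneg_left hqR hr0)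
        nlinarith
      have h5 : K ^ 2 ≤ r ^ 2 * (2 - r ^ 2) := by
        have : K ^ 2 ≤ (r * q) ^ 2 := pow_le_pow_left₀ hK0 hK 2
        rw [mul_pow, hq] at this
        exact this
      nlinarith [sq_nonneg (r ^ 2 - 1 / 2)]
    · push Not at hK0
      have h6 : K ^ 2 ≤ 1 / 4 := by nlinarith
      nlinarith [sq_nonneg r]
  linarith

end Pool.Agent.Helper52.GP
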